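import Mathlib

/-!
Integers that reach 1 under the 5x+1 map within a logarithmic number of steps are sparse.

Idea: look at the first passage times of an orbit below the levels 2^(l + j s).  By pigeonhole one
passage is fast; a fast descent is exponentially rare (parity vector count), and the number of
starting points with a given first passage point is small because the orbit stays above the level.
-/

set_option autoImplicit false

namespace Pool.Agent.P.MP_152764_nt

open Finset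

/-- The 5x+1 map. -/
def T (m : ℕ) : ℕ := if m % 2 = 0 then m / 2 else (5 * m + 1) / 2

/-- Number of odd values among the first `t` iterates. -/
def odds : ℕ → ℕ → ℕ
  | 0, _ => 0
  | t + 1, m => m % 2 + odds t (T m)

lemma odds_le (t m : ℕ) : odds t m ≤ t := by
  induction t generalizing m with
  | zero => simp [odds]
  | succ t ih =>
    have := ih (T m)
    simp only [odds]
    omega

lemma T_even {m : ℕ} (h : m % 2 = 0) : 2 * T m = m := by
  unfold T; rw [if_pos h]; omega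

lemma T_odd {m : ℕ} (h : m % 2 = 1) : 2 * T m = 5 * m + 1 := by
  unfold T; rw [if_neg (by omega)]; omega

lemma le_two_T (m : ℕ) : m ≤ 2 * T m := by
  rcases Nat.mod_two_eq_zero_or_one m with h | h
  · rw [T_even h]
  · rw [T_odd h]; omega

lemma lower (t m : ℕ) : 5 ^ odds t m * m ≤ 2 ^ t * T^[t] m := by
  induction t generalizing m with
  | zero => simp [odds]
  | succ t ih =>
    have h1 := ih (T m)
    rw [Function.iterate_succ_apply]
    simp only [odds]
    rcases Nat.mod_two_eq_zero_or_one m with h | h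
    · have h2 := T_even h
      rw [h, zero_add]
      calc 5 ^ odds t (T m) * m = 5 ^ odds t (T m) * (2 * T m) := by rw [h2]
        _ = 2 * (5 ^ odds t (T m) * T m) := by ring
        _ ≤ 2 * (2 ^ t * T^[t] (T m)) := by omega
        _ = 2 ^ (t + 1) * T^[t] (T m) := by ring
    · have h2 := T_odd h
      rw [h]
      calc 5 ^ (1 + odds t (T m)) * m = 5 ^ odds t (T m) * (5 * m) := by ring
        _ ≤ 5 ^ odds t (T m) * (2 * T m) := by
            apply Nat.mul_le_mul_left; omega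
        _ = 2 * (5 ^ odds t (T m) * T m) := by ring
        _ ≤ 2 * (2 ^ t * T^[t] (T m)) := by omega
        _ = 2 ^ (t + 1) * T^[t] (T m) := by ring

lemma upper (y t d m : ℕ) (hd : t + d = y) (h : ∀ j < t, y ≤ T^[j] m) :
    2 ^ t * T^[t] m * d ≤ 5 ^ odds t m * m * y := by
  induction t generalizing m d with
  | zero => simp [odds] at hd ⊢; rw [hd]
  | succ t ih =>
    have h0 : y ≤ m := by simpa using h 0 (by omega)
    have h1 := ih (d + 1) (T m) (by omega) (fun j hj => by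
      have := h (j + 1) (by omega)
      rwa [Function.iterate_succ_apply] at this)
    rw [Function.iterate_succ_apply]
    simp only [odds]
    set X := 2 ^ t * T^[t] (T m) with hX
    set A := 5 ^ odds t (T m) with hA
    have e1 : 2 ^ (t + 1) * T^[t] (T m) = 2 * X := by rw [hX]; ring
    rw [e1]
    rcases Nat.mod_two_eq_zero_or_one m with h | h
    · have h2 := T_even h
      rw [h, zero_add, ← hA]
      calc 2 * X * d ≤ 2 * (X * (d + 1)) := by nlinarith [Nat.zero_le X]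
        _ ≤ 2 * (A * T m * y) := by omega
        _ = A * (2 * T m) * y := by ring
        _ = A * m * y := by rw [h2]
    · have h2 := T_odd h
      rw [h, pow_add, ← hA]
      have h3 : (2 * X * d) * (d + 1) ≤ (5 ^ 1 * A * m * y) * (d + 1) := by
        calc (2 * X * d) * (d + 1) = 2 * d * (X * (d + 1)) := by ring
          _ ≤ 2 * d * (A * T m * y) := Nat.mul_le_mul_left _ h1
          _ = A * y * ((2 * T m) * d) := by ring
          _ = A * y * (5 * m * d + d) := by rw [h2]; ring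
          _ ≤ A * y * (5 * m * d + 5 * m) := by
              apply Nat.mul_le_mul_left; omega
          _ = (5 ^ 1 * A * m * y) * (d + 1) := by ring
      exact Nat.le_of_mul_le_mul_right h3 (by omega)

lemma sum_range_two_mul' (f : ℕ → ℝ) (M : ℕ) :
    ∑ m ∈ range (2 * M), f m = ∑ m ∈ range M, (f (2 * m) + f (2 * m + 1)) := by
  induction M with
  | zero => simp
  | succ M ih =>
    rw [show 2 * (M + 1) = 2 * M + 1 + 1 by ring, sum_range_succ, sum_range_succ, ih,
      sum_range_succ]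
    ring

lemma sum_w (t a b : ℕ) (ha : a % 2 = 1) :
    ∑ m ∈ range (2 ^ t), (2 / 3 : ℝ) ^ odds t (a * m + b) = (5 / 3) ^ t := by
  induction t generalizing a b with
  | zero => simp [odds]
  | succ t ih =>
    have hev : ∀ c : ℕ, c % 2 = 0 →
        ∑ m ∈ range (2 ^ t), (2 / 3 : ℝ) ^ odds (t + 1) (2 * (a * m) + c) = (5 / 3) ^ t := by
      intro c hc
      rw [← ih a (c / 2) ha]
      refine sum_congr rfl fun m _ => ?_
      have h1 : (2 * (a * m) + c) % 2 = 0 := by omega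
      have h2 := T_even h1
      have h3 : T (2 * (a * m) + c) = a * m + c / 2 := by omega
      simp only [odds]
      rw [h1, h3, zero_add]
    have hod : ∀ c : ℕ, c % 2 = 1 →
        ∑ m ∈ range (2 ^ t), (2 / 3 : ℝ) ^ odds (t + 1) (2 * (a * m) + c)
          = 2 / 3 * (5 / 3) ^ t := by
      intro c hc
      rw [← ih (5 * a) ((5 * c + 1) / 2) (by omega), mul_sum]
      refine sum_congr rfl fun m _ => ?_
      have h1 : (2 * (a * m) + c) % 2 = 1 := by omega
      have h2 := T_odd h1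
      have h3 : T (2 * (a * m) + c) = 5 * a * m + (5 * c + 1) / 2 := by
        rw [mul_assoc]; omega
      simp only [odds]
      rw [h1, h3, pow_add, pow_one]
    rw [pow_succ', sum_range_two_mul', sum_add_distrib]
    have e1 : ∀ m, a * (2 * m) + b = 2 * (a * m) + b := fun m => by ring
    have e2 : ∀ m, a * (2 * m + 1) + b = 2 * (a * m) + (a + b) := fun m => by ring
    simp only [e1, e2]
    rcases Nat.mod_two_eq_zero_or_one b with h | h
    · rw [hev b h, hod (a + b) (by omega)]; ring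
    · rw [hod b h, hev (a + b) (by omega)]; ring

lemma sum_w' (t q : ℕ) :
    ∑ m ∈ range (q * 2 ^ t), (2 / 3 : ℝ) ^ odds t m = q * (5 / 3) ^ t := by
  induction q with
  | zero => simp
  | succ q ih =>
    rw [add_mul, one_mul, sum_range_add, ih]
    have := sum_w t 1 (q * 2 ^ t) (by norm_num)
    simp only [one_mul] at this
    simp only [add_comm (q * 2 ^ t)]
    rw [this]; push_cast; ring

lemma weight_ge (a r t : ℕ) (h : 5 ^ a * 2 ^ r ≤ 2 ^ t) :
    (1 : ℝ) ≤ (5 / 6) ^ r * (6 / 5) ^ t * (2 / 3) ^ a := by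
  have h5 : 1 ≤ 5 ^ a := Nat.one_le_pow _ _ (by norm_num)
  have hrt : r ≤ t := by
    have : 2 ^ r ≤ 2 ^ t := le_trans (Nat.le_mul_of_pos_left _ h5) h
    exact (Nat.pow_le_pow_iff_right (by norm_num)).1 this
  obtain ⟨b, rfl⟩ := Nat.exists_eq_add_of_le hrt
  have h1 : 5 ^ a ≤ 2 ^ b := by
    rw [pow_add, mul_comm (2 ^ r)] at h
    exact Nat.le_of_mul_le_mul_right h (by positivity)
  have h2 : 9 * a ≤ 4 * b := by
    have : 2 ^ (9 * a) ≤ 2 ^ (4 * b) := by
      calc 2 ^ (9 * a) = (2 ^ 9) ^ a := by rw [pow_mul]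
        _ ≤ (5 ^ 4) ^ a := Nat.pow_le_pow_left (by norm_num) _
        _ = (5 ^ a) ^ 4 := by rw [← pow_mul, ← pow_mul, mul_comm]
        _ ≤ (2 ^ b) ^ 4 := Nat.pow_le_pow_left h1 _
        _ = 2 ^ (4 * b) := by rw [← pow_mul, mul_comm]
    exact (Nat.pow_le_pow_iff_right (by norm_num)).1 this
  have h3 : ((3 / 2 : ℝ) ^ a) ^ 16 ≤ ((6 / 5 : ℝ) ^ b) ^ 16 := by
    calc ((3 / 2 : ℝ) ^ a) ^ 16 = (((3 / 2 : ℝ) ^ 4) ^ a) ^ 4 := by
          rw [← pow_mul, ← pow_mul, ← pow_mul]; congr 1; ring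
      _ ≤ (((6 / 5 : ℝ) ^ 9) ^ a) ^ 4 := by gcongr; norm_num
      _ = ((6 / 5 : ℝ) ^ (9 * a)) ^ 4 := by rw [← pow_mul (6 / 5 : ℝ) 9 a]
      _ ≤ ((6 / 5 : ℝ) ^ (4 * b)) ^ 4 := by gcongr; norm_num
      _ = ((6 / 5 : ℝ) ^ b) ^ 16 := by
          rw [← pow_mul, ← pow_mul]; congr 1; ring
  have h4 : (3 / 2 : ℝ) ^ a ≤ (6 / 5 : ℝ) ^ b :=
    le_of_pow_le_pow_left₀ (by norm_num) (by positivity) h3
  have e1 : (5 / 6 : ℝ) ^ r * (6 / 5) ^ r = 1 := by rw [← mul_pow]; norm_num
  have e2 : (3 / 2 : ℝ) ^ a * (2 / 3) ^ a = 1 := by rw [← mul_pow]; norm_num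
  calc (1 : ℝ) = (3 / 2 : ℝ) ^ a * (2 / 3) ^ a := e2.symm
    _ ≤ (6 / 5 : ℝ) ^ b * (2 / 3) ^ a := by gcongr
    _ = ((5 / 6 : ℝ) ^ r * (6 / 5) ^ r) * (6 / 5) ^ b * (2 / 3) ^ a := by rw [e1, one_mul]
    _ = _ := by rw [pow_add]; ring

lemma bad_card (Y r t : ℕ) (ht : t ≤ Y) :
    (((range (2 ^ Y)).filter fun m => 5 ^ odds t m * 2 ^ r ≤ 2 ^ t).card : ℝ)
      ≤ (5 / 6) ^ r * 2 ^ Y := by
  obtain ⟨q, rfl⟩ := Nat.exists_eq_add_of_le ht
  have hs := sum_w' t (2 ^ q)
  rw [show 2 ^ q * 2 ^ t = 2 ^ (t + q) by ring] at hs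
  calc (((range (2 ^ (t + q))).filter fun m => 5 ^ odds t m * 2 ^ r ≤ 2 ^ t).card : ℝ)
      = ∑ m ∈ (range (2 ^ (t + q))).filter fun m => 5 ^ odds t m * 2 ^ r ≤ 2 ^ t, (1 : ℝ) := by
        simp
    _ ≤ ∑ m ∈ (range (2 ^ (t + q))).filter fun m => 5 ^ odds t m * 2 ^ r ≤ 2 ^ t,
          (5 / 6 : ℝ) ^ r * (6 / 5) ^ t * (2 / 3) ^ odds t m :=
        sum_le_sum fun m hm => weight_ge _ _ _ (mem_filter.1 hm).2
    _ ≤ ∑ m ∈ range (2 ^ (t + q)), (5 / 6 : ℝ) ^ r * (6 / 5) ^ t * (2 / 3) ^ odds t m :=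
        sum_le_sum_of_subset_of_nonneg (filter_subset _ _) fun m _ _ => by positivity
    _ = (5 / 6 : ℝ) ^ r * (6 / 5) ^ t * ((2 ^ q : ℕ) * (5 / 3) ^ t) := by
        rw [← mul_sum, hs]
    _ = (5 / 6 : ℝ) ^ r * (((6 / 5) * (5 / 3)) ^ t * 2 ^ q) := by
        rw [mul_pow]; push_cast; ring
    _ = (5 / 6) ^ r * 2 ^ (t + q) := by rw [pow_add]; norm_num

/-- The set of `m < 2^Y` whose parity vector allows a drop by `2^r` within `l` steps. -/
def D (Y r l : ℕ) : Finset ℕ :=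
  (range (l + 1)).biUnion fun t => (range (2 ^ Y)).filter fun m => 5 ^ odds t m * 2 ^ r ≤ 2 ^ t

lemma D_card (Y r l : ℕ) (hl : l ≤ Y) :
    ((D Y r l).card : ℝ) ≤ (l + 1) * ((5 / 6) ^ r * 2 ^ Y) := by
  unfold D
  calc _ ≤ ((∑ t ∈ range (l + 1),
        ((range (2 ^ Y)).filter fun m => 5 ^ odds t m * 2 ^ r ≤ 2 ^ t).card : ℕ) : ℝ) := by
        exact_mod_cast card_biUnion_le
    _ = ∑ t ∈ range (l + 1),
        (((range (2 ^ Y)).filter fun m => 5 ^ odds t m * 2 ^ r ≤ 2 ^ t).card : ℝ) := by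
        push_cast; rfl
    _ ≤ ∑ t ∈ range (l + 1), (5 / 6 : ℝ) ^ r * 2 ^ Y :=
        sum_le_sum fun t ht => bad_card Y r t (by have := mem_range.1 ht; omega)
    _ = _ := by simp

/-- Candidates for a starting point below `W * y` whose orbit stays at least `y` until it enters
`E`, within `L` steps. -/
def Pre (L W : ℕ) (E : Finset ℕ) : Finset ℕ :=
  (range (L + 1) ×ˢ range (L + 1) ×ˢ range (2 * L * W + 1) ×ˢ E).image
    fun p => 2 ^ p.1 * p.2.2.2 / 5 ^ p.2.1 - p.2.2.1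

lemma Pre_card (L W : ℕ) (E : Finset ℕ) :
    (Pre L W E).card ≤ (L + 1) * ((L + 1) * ((2 * L * W + 1) * E.card)) := by
  unfold Pre
  refine card_image_le.trans ?_
  simp [card_product]

lemma mem_Pre (L W y n t : ℕ) (E : Finset ℕ) (hL : 2 * L ≤ y) (hn : n < W * y) (ht : t ≤ L)
    (h : ∀ j < t, y ≤ T^[j] n) (hE : T^[t] n ∈ E) : n ∈ Pre L W E := by
  have hy : 0 < y := by
    rcases Nat.eq_zero_or_pos y with h0 | h0
    · simp [h0] at hn
    · exact h0
  obtain ⟨d, hd⟩ : ∃ d, t + d = y := ⟨y - t, by omega⟩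
  have h1 := lower t n
  have h2 := upper y t d n hd h
  have ha := odds_le t n
  set X := 2 ^ t * T^[t] n with hX
  set A := 5 ^ odds t n with hA
  have hApos : 0 < A := by positivity
  have h3 : n ≤ X / A := (Nat.le_div_iff_mul_le hApos).2 (by rw [mul_comm]; exact h1)
  obtain ⟨e, he⟩ := Nat.exists_eq_add_of_le h3
  have h4 : A * (n + e) ≤ X := by rw [← he]; exact Nat.mul_div_le X A
  have h5 : (n + e) * d ≤ n * y := by
    have : A * ((n + e) * d) ≤ A * (n * y) := by
      calc A * ((n + e) * d) = A * (n + e) * d := by ring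
        _ ≤ X * d := Nat.mul_le_mul_right _ h4
        _ ≤ A * n * y := h2
        _ = A * (n * y) := by ring
    exact Nat.le_of_mul_le_mul_left this hApos
  have h6 : e * d ≤ n * t := by
    rw [← hd] at h5; nlinarith
  have h7 : e * y ≤ (2 * L * W) * y := by
    calc e * y ≤ e * (2 * d) := Nat.mul_le_mul_left _ (by omega)
      _ = 2 * (e * d) := by ring
      _ ≤ 2 * (n * t) := by omega
      _ ≤ 2 * ((W * y) * L) := by
          apply Nat.mul_le_mul_left
          exact Nat.mul_le_mul hn.le ht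
      _ = (2 * L * W) * y := by ring
  have h8 : e ≤ 2 * L * W := Nat.le_of_mul_le_mul_right h7 hy
  unfold Pre
  refine mem_image.2 ⟨(t, odds t n, e, T^[t] n), ?_, ?_⟩
  · simp only [mem_product, mem_range]
    exact ⟨by omega, by omega, by omega, hE⟩
  · show X / A - e = n
    omega

lemma pigeon (f y : ℕ → ℕ) (hy : Monotone y) (l I k : ℕ) (hk : k ≤ I * l) (hfk : f k < y 0)
    (h0 : y I ≤ f 0) :
    ∃ j < I, ∃ t, t + 1 ≤ k ∧ (∀ i < t + 1, y (j + 1) ≤ f i) ∧ f (t + 1) < y (j + 1) ∧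
      ∃ u ≤ l, f (t + 1 + u) < y j := by
  classical
  have hex : ∀ j, ∃ t, f t < y j := fun j => ⟨k, lt_of_lt_of_le hfk (hy (Nat.zero_le j))⟩
  let τ : ℕ → ℕ := fun j => Nat.find (hex j)
  have hspec : ∀ j, f (τ j) < y j := fun j => Nat.find_spec (hex j)
  have hmin : ∀ j i, i < τ j → y j ≤ f i := fun j i hi =>
    not_lt.1 (Nat.find_min (hex j) hi)
  have hle : ∀ j i, f i < y j → τ j ≤ i := fun j i hi => Nat.find_min' (hex j) hi
  have hpos : ∀ j ≤ I, 0 < τ j := fun j hj => by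
    rcases Nat.eq_zero_or_pos (τ j) with h | h
    · have h1 := hspec j
      rw [h] at h1
      have := hy hj
      omega
    · exact h
  have hfast : ∃ j < I, τ j ≤ τ (j + 1) + l := by
    by_contra hcon
    push Not at hcon
    have : ∀ j ≤ I, τ j + j * l ≤ τ 0 := by
      intro j
      induction j with
      | zero => simp
      | succ j ih =>
        intro hj
        have h1 := ih (by omega)
        have h2 := hcon j (by omega)
        rw [add_mul]; omega
    have h1 := this I le_rfl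
    have h2 := hpos I le_rfl
    have h3 := hle 0 k hfk
    omega
  obtain ⟨j, hj, hτ⟩ := hfast
  have h1 := hpos (j + 1) (by omega)
  have h2 : τ (j + 1) ≤ τ j := hle _ _ (lt_of_lt_of_le (hspec j) (hy (by omega)))
  have h3 : τ (j + 1) ≤ k := hle _ _ (lt_of_lt_of_le hfk (hy (Nat.zero_le _)))
  refine ⟨j, hj, τ (j + 1) - 1, by omega, ?_, ?_, τ j - τ (j + 1), by omega, ?_⟩
  · intro i hi; exact hmin _ _ (by omega)
  · rw [show τ (j + 1) - 1 + 1 = τ (j + 1) by omega]; exact hspec _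
  · rw [show τ (j + 1) - 1 + 1 + (τ j - τ (j + 1)) = τ j by omega]; exact hspec _

/-- The covering set. -/
def Cover (I r l : ℕ) : Finset ℕ :=
  range (2 ^ (l + I * (r + 1))) ∪
    (range I).biUnion fun j =>
      Pre (I * l) (2 ^ ((I - j) * (r + 1))) (D (l + (j + 1) * (r + 1)) r l)

lemma mem_Cover (I r l n k : ℕ) (hl : 1 ≤ l) (h2 : 2 * (I * l) ≤ 2 ^ l)
    (hn : n < 2 ^ (l + (I + 1) * (r + 1))) (hk : k ≤ I * l) (h1 : T^[k] n = 1) :
    n ∈ Cover I r l := by
  unfold Cover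
  rcases lt_or_ge n (2 ^ (l + I * (r + 1))) with hs | hs
  · exact mem_union_left _ (mem_range.2 hs)
  refine mem_union_right _ ?_
  have hmono : Monotone fun j : ℕ => 2 ^ (l + j * (r + 1)) := by
    intro a b hab
    apply Nat.pow_le_pow_right (by norm_num)
    have := Nat.mul_le_mul_right (r + 1) hab
    omega
  obtain ⟨j, hj, t, ht, hab, hbe, u, hu, hdrop⟩ :=
    pigeon (fun i => T^[i] n) (fun j => 2 ^ (l + j * (r + 1))) hmono l I k hk
      (by
        simp only [h1, zero_mul, add_zero]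
        exact Nat.one_lt_two_pow (by omega))
      (by simpa using hs)
  refine mem_biUnion.2 ⟨j, mem_range.2 hj, ?_⟩
  refine mem_Pre _ _ (2 ^ (l + (j + 1) * (r + 1))) n (t + 1) _ ?_ ?_ (by omega) hab ?_
  · exact h2.trans (Nat.pow_le_pow_right (by norm_num) (by omega))
  · rw [← pow_add]
    obtain ⟨d, rfl⟩ := Nat.exists_eq_add_of_le hj.le
    rw [show j + d - j = d by omega, show d * (r + 1) + (l + (j + 1) * (r + 1))
      = l + (j + d + 1) * (r + 1) by ring]
    exact hn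
  · unfold D
    refine mem_biUnion.2 ⟨u, mem_range.2 (by omega), mem_filter.2 ⟨mem_range.2 hbe, ?_⟩⟩
    set m := T^[t + 1] n with hm
    have hmu : T^[t + 1 + u] n = T^[u] m := by
      rw [add_comm, Function.iterate_add_apply]
    rw [hmu] at hdrop
    have hp := hab t (by omega)
    have hm2 : 2 ^ (l + (j + 1) * (r + 1)) ≤ 2 * m := by
      rw [hm, Function.iterate_succ_apply']
      exact hp.trans (le_two_T _)
    have e : 2 ^ (l + (j + 1) * (r + 1)) = 2 * (2 ^ r * 2 ^ (l + j * (r + 1))) := by ring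
    have hm3 : 2 ^ r * 2 ^ (l + j * (r + 1)) ≤ m := by omega
    have hmpos : 0 < m := lt_of_lt_of_le (by positivity) hm3
    have hlow := lower u m
    have : 5 ^ odds u m * 2 ^ r * m ≤ 2 ^ u * m := by
      calc 5 ^ odds u m * 2 ^ r * m = 2 ^ r * (5 ^ odds u m * m) := by ring
        _ ≤ 2 ^ r * (2 ^ u * T^[u] m) := Nat.mul_le_mul_left _ hlow
        _ = 2 ^ u * (2 ^ r * T^[u] m) := by ring
        _ ≤ 2 ^ u * (2 ^ r * 2 ^ (l + j * (r + 1))) :=
            Nat.mul_le_mul_left _ (Nat.mul_le_mul_left _ hdrop.le)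
        _ ≤ 2 ^ u * m := Nat.mul_le_mul_left _ hm3
    exact Nat.le_of_mul_le_mul_right this hmpos

lemma Cover_card (I r l : ℕ) :
    ((Cover I r l).card : ℝ) ≤ 2 ^ (l + (I + 1) * (r + 1)) *
      ((1 / 2) ^ (r + 1) +
        I * ((I * l + 1) * (I * l + 1) * (2 * (I * l) + 1) * (l + 1) * (5 / 6) ^ r)) := by
  unfold Cover
  have hA : ((range (2 ^ (l + I * (r + 1)))).card : ℝ)
      = 2 ^ (l + (I + 1) * (r + 1)) * (1 / 2) ^ (r + 1) := by
    rw [card_range, show l + (I + 1) * (r + 1) = l + I * (r + 1) + (r + 1) by ring, pow_add _ _ (r + 1),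
      mul_assoc, ← mul_pow]
    push_cast; norm_num
  have hB : ∀ j ∈ range I,
      ((Pre (I * l) (2 ^ ((I - j) * (r + 1))) (D (l + (j + 1) * (r + 1)) r l)).card : ℝ)
        ≤ 2 ^ (l + (I + 1) * (r + 1)) *
          ((I * l + 1) * (I * l + 1) * (2 * (I * l) + 1) * (l + 1) * (5 / 6) ^ r) := by
    intro j hj
    obtain ⟨d, rfl⟩ := Nat.exists_eq_add_of_le (mem_range.1 hj).le
    rw [show j + d - j = d by omega]
    set L := (j + d) * l with hL
    have hL' : ((j + d : ℕ) : ℝ) * l = L := by rw [hL]; push_cast; ring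
    rw [hL']
    have h1 := Pre_card L (2 ^ (d * (r + 1))) (D (l + (j + 1) * (r + 1)) r l)
    have h2 := D_card (l + (j + 1) * (r + 1)) r l (by omega)
    have h3 : (1 : ℝ) ≤ 2 ^ (d * (r + 1)) := one_le_pow₀ (by norm_num)
    have h1' : ((Pre L (2 ^ (d * (r + 1))) (D (l + (j + 1) * (r + 1)) r l)).card : ℝ)
        ≤ (L + 1) * ((L + 1) * ((2 * L * 2 ^ (d * (r + 1)) + 1) *
          (D (l + (j + 1) * (r + 1)) r l).card)) := by exact_mod_cast h1
    calc _ ≤ _ := h1'
      _ ≤ (L + 1) * ((L + 1) * ((2 * L * 2 ^ (d * (r + 1)) + 2 ^ (d * (r + 1))) *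
          ((l + 1) * ((5 / 6) ^ r * 2 ^ (l + (j + 1) * (r + 1)))))) := by gcongr
      _ = _ := by
          rw [show l + (j + d + 1) * (r + 1) = d * (r + 1) + (l + (j + 1) * (r + 1)) by ring,
            pow_add _ (d * (r + 1))]
          ring
  calc _ ≤ (((range (2 ^ (l + I * (r + 1)))).card + ∑ j ∈ range I,
        (Pre (I * l) (2 ^ ((I - j) * (r + 1))) (D (l + (j + 1) * (r + 1)) r l)).card : ℕ) : ℝ) := by
        exact_mod_cast (card_union_le _ _).trans (Nat.add_le_add_left card_biUnion_le _)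
    _ = ((range (2 ^ (l + I * (r + 1)))).card : ℝ) + ∑ j ∈ range I,
        ((Pre (I * l) (2 ^ ((I - j) * (r + 1))) (D (l + (j + 1) * (r + 1)) r l)).card : ℝ) := by
        push_cast; rfl
    _ ≤ 2 ^ (l + (I + 1) * (r + 1)) * (1 / 2) ^ (r + 1) + ∑ j ∈ range I,
        2 ^ (l + (I + 1) * (r + 1)) *
          ((I * l + 1) * (I * l + 1) * (2 * (I * l) + 1) * (l + 1) * (5 / 6 : ℝ) ^ r) := by
        rw [hA]; gcongr with j hj; exact hB j hj
    _ = _ := by simp; ring

lemma sq_le_two_pow (l : ℕ) (hl : 4 ≤ l) : l * l ≤ 2 ^ l := by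
  induction l, hl using Nat.le_induction with
  | base => norm_num
  | succ l hl ih => rw [pow_succ]; nlinarith

/-- The density bound at scale `r`. -/
noncomputable def g (I r : ℕ) : ℝ :=
  (1 / 2) ^ (r + 1) +
    I * ((I * ((I + 1) * (r + 1) : ℕ) + 1) * (I * ((I + 1) * (r + 1) : ℕ) + 1) *
      (2 * (I * ((I + 1) * (r + 1) : ℕ)) + 1) * (((I + 1) * (r + 1) : ℕ) + 1) * (5 / 6) ^ r)

lemma g_tendsto (I : ℕ) : Filter.Tendsto (g I) Filter.atTop (nhds 0) := by
  have h1 : Filter.Tendsto (fun r : ℕ => (1 / 2 : ℝ) ^ (r + 1)) Filter.atTop (nhds 0) :=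
    (tendsto_pow_atTop_nhds_zero_of_lt_one (by norm_num) (by norm_num)).comp
      (Filter.tendsto_add_atTop_nat 1)
  have h2 : Filter.Tendsto (fun r : ℕ => ((r + 1 : ℕ) : ℝ) ^ 4 * (5 / 6 : ℝ) ^ (r + 1))
      Filter.atTop (nhds 0) :=
    (tendsto_pow_const_mul_const_pow_of_abs_lt_one 4 (r := 5 / 6)
      (by rw [abs_of_pos] <;> norm_num)).comp (Filter.tendsto_add_atTop_nat 1)
  set B : ℝ := 2 * (I * (I + 1)) + (I + 1) + 1 with hB
  have h3 := h1.add (h2.const_mul (I * B ^ 4 * (6 / 5)))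
  rw [mul_zero, add_zero] at h3
  refine squeeze_zero (fun r => by unfold g; positivity) (fun r => ?_) h3
  unfold g
  have hI : (0 : ℝ) ≤ I := Nat.cast_nonneg _
  have hr : (1 : ℝ) ≤ ((r + 1 : ℕ) : ℝ) := by exact_mod_cast Nat.succ_le_succ (Nat.zero_le r)
  have e : (((I + 1) * (r + 1) : ℕ) : ℝ) = (I + 1) * ((r + 1 : ℕ) : ℝ) := by push_cast; ring
  rw [e]
  set s : ℝ := ((r + 1 : ℕ) : ℝ) with hs
  have p1 : 0 ≤ (I : ℝ) * (I + 1) * s := by positivity
  have p2 : 0 ≤ ((I : ℝ) + 1) * s := by positivity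
  have b1 : (I : ℝ) * ((I + 1) * s) + 1 ≤ B * s := by rw [hB]; nlinarith
  have b2 : 2 * ((I : ℝ) * ((I + 1) * s)) + 1 ≤ B * s := by rw [hB]; nlinarith
  have b3 : ((I : ℝ) + 1) * s + 1 ≤ B * s := by rw [hB]; nlinarith
  calc _ ≤ (1 / 2 : ℝ) ^ (r + 1) +
        I * ((B * s) * (B * s) * (B * s) * (B * s) * (5 / 6) ^ r) := by gcongr
    _ = _ := by rw [pow_succ (5 / 6 : ℝ)]; ring

lemma log_tendsto (b : ℕ) (hb : 1 < b) :
    Filter.Tendsto (Nat.log b) Filter.atTop Filter.atTop := by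
  refine Filter.tendsto_atTop.2 fun r => ?_
  filter_upwards [Filter.eventually_ge_atTop (b ^ r)] with N hN
  exact Nat.le_log_of_pow_le hb hN

theorem main (c : ℝ) (hc : 0 < c) :
    Filter.Tendsto
      (fun N : ℕ =>
        (({n : ℕ | n < N ∧ ∃ k : ℕ, 1 ≤ k ∧ T^[k] n = 1 ∧
            (k : ℝ) < c * Real.log n}.ncard : ℝ) / (N : ℝ)))
      Filter.atTop (nhds 0) := by
  obtain ⟨C, hC⟩ := exists_nat_ge c
  set I := 2 * C with hI
  set b := 2 ^ (2 * (I + 1)) with hb
  have hb1 : 1 < b := Nat.one_lt_two_pow (by omega)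
  have hlog := log_tendsto b hb1
  have hg := ((g_tendsto I).comp hlog).const_mul (b : ℝ)
  rw [mul_zero] at hg
  refine squeeze_zero' (Filter.Eventually.of_forall fun N => by positivity) ?_ hg
  filter_upwards [hlog.eventually_ge_atTop 3, Filter.eventually_ge_atTop 1] with N hr hN
  set r := Nat.log b N with hrdef
  set l := (I + 1) * (r + 1) with hl
  have hK : b ^ (r + 1) = 2 ^ (l + (I + 1) * (r + 1)) := by
    rw [hb, ← pow_mul]; congr 1; rw [hl]; ring
  have hN1 : N < 2 ^ (l + (I + 1) * (r + 1)) := by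
    rw [← hK]; exact Nat.lt_pow_succ_log_self hb1 N
  have hN2 : b ^ r ≤ N := Nat.pow_log_le_self b (by omega)
  have hl4 : 4 * (I + 1) ≤ l := by rw [hl]; nlinarith
  have h2 : 2 * (I * l) ≤ 2 ^ l := by
    refine le_trans ?_ (sq_le_two_pow l (by omega))
    nlinarith
  have hsub : {n : ℕ | n < N ∧ ∃ k : ℕ, 1 ≤ k ∧ T^[k] n = 1 ∧ (k : ℝ) < c * Real.log n}
      ⊆ (Cover I r l : Set ℕ) := by
    rintro n ⟨hn, k, -, hk1, hk2⟩
    have hn' : n < 2 ^ (l + (I + 1) * (r + 1)) := hn.trans hN1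
    refine mem_Cover I r l n k (by omega) h2 hn' ?_ hk1
    have hlogn : Real.log n ≤ (2 * l : ℕ) := by
      rcases Nat.eq_zero_or_pos n with h0 | h0
      · rw [h0]; simp
      · have h3 : (n : ℝ) ≤ 2 ^ (2 * l) := by
          rw [two_mul]; exact_mod_cast hn'.le
        calc Real.log n ≤ Real.log (2 ^ (2 * l)) :=
              Real.log_le_log (by exact_mod_cast h0) h3
          _ = (2 * l : ℕ) * Real.log 2 := by rw [Real.log_pow]
          _ ≤ (2 * l : ℕ) * 1 := by
              gcongr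
              have := Real.log_two_lt_d9
              linarith
          _ = _ := mul_one _
    have h4 : (k : ℝ) ≤ (I * l : ℕ) := by
      calc (k : ℝ) ≤ c * Real.log n := hk2.le
        _ ≤ c * (2 * l : ℕ) := by gcongr
        _ ≤ C * (2 * l : ℕ) := by gcongr
        _ = (I * l : ℕ) := by rw [hI]; push_cast; ring
    exact_mod_cast h4
  have hcard := Set.ncard_le_ncard hsub (Finset.finite_toSet _)
  rw [Set.ncard_coe_finset] at hcard
  have hC2 := Cover_card I r l
  have hNpos : (0 : ℝ) < N := by exact_mod_cast hN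
  rw [div_le_iff₀ hNpos]
  have hgpos : 0 ≤ g I r := by unfold g; positivity
  have hK' : (2 : ℝ) ^ (l + (I + 1) * (r + 1)) = (b : ℝ) * (b ^ r : ℕ) := by
    have : ((b ^ (r + 1) : ℕ) : ℝ) = ((2 ^ (l + (I + 1) * (r + 1)) : ℕ) : ℝ) := by rw [hK]
    push_cast at this ⊢
    rw [← this]; ring
  have hN2' : ((b ^ r : ℕ) : ℝ) ≤ N := by exact_mod_cast hN2
  calc _ ≤ ((Cover I r l).card : ℝ) := by exact_mod_cast hcard
    _ ≤ 2 ^ (l + (I + 1) * (r + 1)) * g I r := hC2
    _ = (b : ℝ) * (b ^ r : ℕ) * g I r := by rw [hK']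
    _ ≤ (b : ℝ) * N * g I r := by gcongr
    _ = _ := by simp only [Function.comp]; ring

end Pool.Agent.P.MP_152764_nt
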